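import Mathlib
import Pool.Agent.Helpers29.Fox47cbd1

namespace Pool.Agent.Results.MP_47cbd1_al.NonInvertible

open Pool.Agent.Helpers29.Fox47cbd1

/-- There is an element `f` of the derived subgroup such that for every `l ∈ Zhat`, in particular
for every unit (and `1` is a unit), the continuous endomorphism `x ↦ x ^ l`, `y ↦ f⁻¹ y ^ l f` of
the free profinite group on `x, y` (which exists and is unique) is not surjective. -/
theorem result : IsUnitZhat oneZ ∧ ∃ f ∈ derived, ∀ l : Zhat,
    (∃! φ : F2hat →ₜ* F2hat, IsPhi l f φ) ∧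
      ∀ φ : F2hat →ₜ* F2hat, IsPhi l f φ → ¬ Function.Surjective φ :=
  main

end Pool.Agent.Results.MP_47cbd1_al.NonInvertible
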